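import Pool.Agent.H629.TA.Stm

set_option autoImplicit false

open Finset

namespace Pool.Agent.H404.TA.ON

open Pool.Agent.H629.TA

/-- the growth inequality for a homogeneous functional -/
theorem gen (h : S_GW) (m : ℕ) (s : Finset ℕ) (x : ℕ → ℝ) (L : ℝ) (hx : ∀ a ∈ s, 0 < x a)
    (hL : 0 < L) (hs : ∑ a ∈ s, x a = L) (c : ℝ) (hc : 0 ≤ c) (F : (ℕ → ℝ) → ℝ)
    (h1 : ∀ y : ℕ → ℝ, (∀ a ∈ s, 0 < y a) → ∀ a ∈ s, F y ≤ F (Function.update y a (y a + 1)))
    (h2 : ∀ y : ℕ → ℝ, ∑ a ∈ s, y a * (F (Function.update y a (y a + 1)) - F y) = c * F y) :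
    draw m s (fun a => x a / L) (fun j => F (fun a => x a + (cnt j a : ℝ))) ≤
      (1 + c / L) ^ m * F x := by
  have hp : ∑ a ∈ s, x a / L = 1 := by
    rw [← Finset.sum_div, hs, div_self hL.ne']
  refine h m s (fun a => x a / L) (fun a ha => (div_pos (hx a ha) hL).le) hp x (1 + c / L)
    (by positivity) F (fun y hy => ?_) x (fun a _ => le_rfl)
  have hy0 : ∀ a ∈ s, 0 < y a := fun a ha => lt_of_lt_of_le (hx a ha) (hy a ha)
  have e1 : ∑ a ∈ s, x a / L * F (Function.update y a (y a + 1)) =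
      F y + ∑ a ∈ s, x a / L * (F (Function.update y a (y a + 1)) - F y) := by
    have e2 : F y = ∑ a ∈ s, x a / L * F y := by
      rw [← Finset.sum_mul, hp, one_mul]
    conv_rhs => rw [e2]
    rw [← Finset.sum_add_distrib]
    refine Finset.sum_congr rfl fun a _ => ?_
    rw [← e2]
    ring
  have e3 : ∑ a ∈ s, x a / L * (F (Function.update y a (y a + 1)) - F y) ≤
      ∑ a ∈ s, y a / L * (F (Function.update y a (y a + 1)) - F y) := by
    refine Finset.sum_le_sum fun a ha => ?_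
    refine mul_le_mul_of_nonneg_right ?_ (sub_nonneg.2 (h1 y hy0 a ha))
    exact div_le_div_of_nonneg_right (hy a ha) hL.le
  have e4 : ∑ a ∈ s, y a / L * (F (Function.update y a (y a + 1)) - F y) = c / L * F y := by
    have e5 := h2 y
    have e6 : ∑ a ∈ s, y a / L * (F (Function.update y a (y a + 1)) - F y) =
        (∑ a ∈ s, y a * (F (Function.update y a (y a + 1)) - F y)) / L := by
      rw [Finset.sum_div]
      refine Finset.sum_congr rfl fun a _ => ?_
      ring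
    rw [e6, e5]
    ring
  rw [e1]
  calc F y + ∑ a ∈ s, x a / L * (F (Function.update y a (y a + 1)) - F y)
      ≤ F y + c / L * F y := by
        rw [← e4]
        linarith
    _ = (1 + c / L) * F y := by ring

theorem upd1 (s : Finset ℕ) (φ : ℝ → ℝ) (y : ℕ → ℝ) (c : ℕ) (hc : c ∈ s) (v : ℝ) :
    ∑ a ∈ s, φ (Function.update y c v a) = ∑ a ∈ s, φ (y a) + (φ v - φ (y c)) := by
  have h1 : ∀ a, φ (Function.update y c v a) =
      φ (y a) + (if a = c then φ v - φ (y c) else 0) := by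
    intro a
    by_cases h : a = c
    · rw [h, Function.update_self, if_pos rfl]
      ring
    · rw [Function.update_of_ne h, if_neg h, add_zero]
  rw [Finset.sum_congr rfl (fun a _ => h1 a), Finset.sum_add_distrib, Finset.sum_ite_eq',
    if_pos hc]

theorem upd2 (s : Finset ℕ) (K : ℕ → ℕ → ℝ) (hK : ∀ a, K a a = 0) (ψ : ℝ → ℝ) (y : ℕ → ℝ)
    (c : ℕ) (hc : c ∈ s) (v : ℝ) :
    ∑ a ∈ s, ∑ b ∈ s, K a b * (ψ (Function.update y c v a) * ψ (Function.update y c v b)) =
      ∑ a ∈ s, ∑ b ∈ s, K a b * (ψ (y a) * ψ (y b)) +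
        (ψ v - ψ (y c)) * (∑ b ∈ s, K c b * ψ (y b) + ∑ a ∈ s, K a c * ψ (y a)) := by
  have h1 : ∀ a, ψ (Function.update y c v a) =
      ψ (y a) + (if a = c then ψ v - ψ (y c) else 0) := by
    intro a
    by_cases h : a = c
    · rw [h, Function.update_self, if_pos rfl]
      ring
    · rw [Function.update_of_ne h, if_neg h, add_zero]
  have h2 : ∀ a b, K a b * (ψ (Function.update y c v a) * ψ (Function.update y c v b)) =
      K a b * (ψ (y a) * ψ (y b)) +
        (if a = c then (ψ v - ψ (y c)) * (K c b * ψ (y b)) else 0) +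
        (if b = c then (ψ v - ψ (y c)) * (K a c * ψ (y a)) else 0) := by
    intro a b
    rw [h1 a, h1 b]
    by_cases h : a = c
    · by_cases h' : b = c
      · simp [h, h', hK]
      · rw [h, if_pos rfl, if_neg h', if_pos rfl, if_neg h']
        ring
    · by_cases h' : b = c
      · rw [h', if_pos rfl, if_neg h, if_pos rfl, if_neg h]
        ring
      · rw [if_neg h, if_neg h', if_neg h, if_neg h']
        ring
  have h3 : ∀ a ∈ s, ∑ b ∈ s, K a b * (ψ (Function.update y c v a) * ψ (Function.update y c v b)) =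
      ∑ b ∈ s, K a b * (ψ (y a) * ψ (y b)) +
        (if a = c then (ψ v - ψ (y c)) * ∑ b ∈ s, K c b * ψ (y b) else 0) +
        (ψ v - ψ (y c)) * (K a c * ψ (y a)) := by
    intro a _
    rw [Finset.sum_congr rfl (fun b _ => h2 a b), Finset.sum_add_distrib,
      Finset.sum_add_distrib, Finset.sum_ite_eq', if_pos hc]
    congr 2
    by_cases h : a = c
    · rw [if_pos h, Finset.mul_sum]
      refine Finset.sum_congr rfl fun b _ => ?_
      rw [if_pos h]
    · rw [if_neg h]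
      refine Finset.sum_eq_zero fun b _ => ?_
      rw [if_neg h]
  rw [Finset.sum_congr rfl h3, Finset.sum_add_distrib, Finset.sum_add_distrib,
    Finset.sum_ite_eq', if_pos hc, ← Finset.mul_sum]
  ring

theorem gen2 (h : S_GW) (m : ℕ) (s : Finset ℕ) (x : ℕ → ℝ) (L : ℝ) (hx : ∀ a ∈ s, 0 < x a)
    (hL : 0 < L) (hs : ∑ a ∈ s, x a = L) (K : ℕ → ℕ → ℝ) (hK0 : ∀ a b, 0 ≤ K a b)
    (hK : ∀ a, K a a = 0) (ψ : ℝ → ℝ) (r : ℝ) (hr : 0 ≤ r)
    (h1 : ∀ t, 0 < t → 0 ≤ ψ t ∧ ψ t ≤ ψ (t + 1)) (h2 : ∀ t, t * (ψ (t + 1) - ψ t) = r * ψ t) :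
    draw m s (fun a => x a / L) (fun j => ∑ a ∈ s, ∑ b ∈ s, K a b *
        (ψ (x a + (cnt j a : ℝ)) * ψ (x b + (cnt j b : ℝ)))) ≤
      (1 + 2 * r / L) ^ m * ∑ a ∈ s, ∑ b ∈ s, K a b * (ψ (x a) * ψ (x b)) := by
  refine gen h m s x L hx hL hs (2 * r) (by positivity)
    (fun y => ∑ a ∈ s, ∑ b ∈ s, K a b * (ψ (y a) * ψ (y b))) (fun y hy c hc => ?_) (fun y => ?_)
  · rw [upd2 s K hK ψ y c hc]
    have e1 := (h1 (y c) (hy c hc)).2
    have e2 : 0 ≤ ∑ b ∈ s, K c b * ψ (y b) :=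
      Finset.sum_nonneg fun b hb => mul_nonneg (hK0 _ _) (h1 (y b) (hy b hb)).1
    have e3 : 0 ≤ ∑ a ∈ s, K a c * ψ (y a) :=
      Finset.sum_nonneg fun b hb => mul_nonneg (hK0 _ _) (h1 (y b) (hy b hb)).1
    have e4 : 0 ≤ (ψ (y c + 1) - ψ (y c)) *
        (∑ b ∈ s, K c b * ψ (y b) + ∑ a ∈ s, K a c * ψ (y a)) :=
      mul_nonneg (sub_nonneg.2 e1) (add_nonneg e2 e3)
    linarith
  · have e1 : ∀ c ∈ s, y c * (∑ a ∈ s, ∑ b ∈ s, K a b *
        (ψ (Function.update y c (y c + 1) a) * ψ (Function.update y c (y c + 1) b)) -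
        ∑ a ∈ s, ∑ b ∈ s, K a b * (ψ (y a) * ψ (y b))) =
        r * (∑ b ∈ s, K c b * (ψ (y c) * ψ (y b))) +
          r * ∑ a ∈ s, K a c * (ψ (y a) * ψ (y c)) := by
      intro c hc
      rw [upd2 s K hK ψ y c hc, add_sub_cancel_left, ← mul_assoc, h2]
      have e2 : ∑ b ∈ s, K c b * (ψ (y c) * ψ (y b)) = ψ (y c) * ∑ b ∈ s, K c b * ψ (y b) := by
        rw [Finset.mul_sum]
        refine Finset.sum_congr rfl fun b _ => ?_
        ring
      have e3 : ∑ a ∈ s, K a c * (ψ (y a) * ψ (y c)) = ψ (y c) * ∑ a ∈ s, K a c * ψ (y a) := by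
        rw [Finset.mul_sum]
        refine Finset.sum_congr rfl fun b _ => ?_
        ring
      rw [e2, e3]
      ring
    rw [Finset.sum_congr rfl e1, Finset.sum_add_distrib, ← Finset.mul_sum, ← Finset.mul_sum]
    have e4 : ∑ c ∈ s, ∑ a ∈ s, K a c * (ψ (y a) * ψ (y c)) =
        ∑ a ∈ s, ∑ b ∈ s, K a b * (ψ (y a) * ψ (y b)) := Finset.sum_comm
    rw [e4]
    ring

theorem t_ON : S_GW → S_ON := by
  intro h m s x L hx hL hs
  refine ⟨?_, fun K hK0 hK => ⟨?_, ?_⟩⟩
  · refine gen h m s x L hx hL hs 3 (by norm_num)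
      (fun y => ∑ a ∈ s, y a * (y a + 1) * (y a + 2)) (fun y hy c hc => ?_) (fun y => ?_)
    · have e := upd1 s (fun t => t * (t + 1) * (t + 2)) y c hc (y c + 1)
      rw [e]
      have e1 := hy c hc
      have e2 : 0 ≤ 3 * ((y c + 1) * (y c + 2)) := by positivity
      nlinarith
    · have e1 : ∀ c ∈ s, y c * (∑ a ∈ s, Function.update y c (y c + 1) a *
          (Function.update y c (y c + 1) a + 1) * (Function.update y c (y c + 1) a + 2) -
          ∑ a ∈ s, y a * (y a + 1) * (y a + 2)) = 3 * (y c * (y c + 1) * (y c + 2)) := by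
        intro c hc
        have e := upd1 s (fun t => t * (t + 1) * (t + 2)) y c hc (y c + 1)
        rw [e]
        ring
      rw [Finset.sum_congr rfl e1, ← Finset.mul_sum]
  · have e := gen2 h m s x L hx hL hs K hK0 hK (fun t => t * (t + 1)) 2 (by norm_num)
      (fun t ht => ⟨by positivity, by nlinarith⟩) (fun t => by ring)
    norm_num at e
    exact e
  · have e := gen2 h m s x L hx hL hs K hK0 hK (fun t => t) 1 (by norm_num)
      (fun t ht => ⟨ht.le, by linarith⟩) (fun t => by ring)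
    simp only [mul_one] at e
    exact e

end Pool.Agent.H404.TA.ON
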